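import Mathlib

/-! The explicit 2-adically integral sequence behind the quotient of hypergeometric series. -/

namespace Pool.Agent.Q95.HQ

open Finset

/-- rational numbers with odd denominator -/
def Z2 (x : ℚ) : Prop := ∃ b : ℤ, Odd b ∧ ∃ a : ℤ, x * b = a

theorem Z2.int (a : ℤ) : Z2 a := ⟨1, odd_one, a, by simp⟩

theorem Z2.nat (a : ℕ) : Z2 a := by simpa using Z2.int a

theorem Z2.zero : Z2 0 := by simpa using Z2.int 0

theorem Z2.one : Z2 1 := by simpa using Z2.int 1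

theorem Z2.add {x y : ℚ} (hx : Z2 x) (hy : Z2 y) : Z2 (x + y) := by
  obtain ⟨b, hb, a, h⟩ := hx
  obtain ⟨b', hb', a', h'⟩ := hy
  refine ⟨b * b', hb.mul hb', a * b' + a' * b, ?_⟩
  push_cast
  rw [← h, ← h']; ring

theorem Z2.mul {x y : ℚ} (hx : Z2 x) (hy : Z2 y) : Z2 (x * y) := by
  obtain ⟨b, hb, a, h⟩ := hx
  obtain ⟨b', hb', a', h'⟩ := hy
  refine ⟨b * b', hb.mul hb', a * a', ?_⟩
  push_cast
  rw [← h, ← h']; ring

theorem Z2.neg {x : ℚ} (hx : Z2 x) : Z2 (-x) := by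
  simpa using (Z2.int (-1)).mul hx

theorem Z2.sub {x y : ℚ} (hx : Z2 x) (hy : Z2 y) : Z2 (x - y) := by
  rw [sub_eq_add_neg]; exact hx.add hy.neg

theorem Z2.sum {ι : Type*} (s : Finset ι) {f : ι → ℚ} (h : ∀ i ∈ s, Z2 (f i)) :
    Z2 (∑ i ∈ s, f i) := by
  classical
  induction s using Finset.induction_on with
  | empty => simpa using Z2.zero
  | insert i s hi ih =>
    rw [Finset.sum_insert hi]
    exact (h i (Finset.mem_insert_self _ _)).add
      (ih fun j hj => h j (Finset.mem_insert_of_mem hj))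

theorem Z2.of_mul_odd {x : ℚ} {b : ℤ} (hb : Odd b) (h : Z2 (x * b)) : Z2 x := by
  obtain ⟨c, hc, a, h'⟩ := h
  refine ⟨b * c, hb.mul hc, a, ?_⟩
  push_cast
  rw [← h']; ring

theorem Z2.den {x : ℚ} (hx : Z2 x) : Odd x.den := by
  obtain ⟨b, hb, a, h⟩ := hx
  have hb0 : (b : ℚ) ≠ 0 := by
    intro h0
    have : b = 0 := by exact_mod_cast h0
    subst this
    simp at hb
  have hx' : x = (a : ℚ) / (b : ℚ) := by rw [← h]; field_simp
  have hd : ((x.den : ℤ)) ∣ b := by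
    rw [hx', ← Rat.divInt_eq_div]
    exact Rat.den_dvd a b
  have h2 : Odd ((x.den : ℤ)) := by
    obtain ⟨c, rfl⟩ := hd
    exact (Int.odd_mul.mp hb).1
  exact_mod_cast h2

/-! ### the sequences -/

def a : ℕ → ℚ
  | 0 => 1
  | n + 1 => a n * (4 * n + 1) / (4 * n + 3)

def t (n : ℕ) : ℕ → ℚ
  | 0 => 1
  | j + 1 => t n j * (-((2 * j + 1) ^ 2 * (n - 2 * j) * (n - 2 * j - 1)) /
      ((j + 1) ^ 2 * (4 * j + 3) * (4 * n - 4 * j - 3)))

def Kh (n : ℕ) : ℚ := a n * ∑ j ∈ range (n + 1), t n j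

theorem ne1 (m j : ℕ) : (4 * (m : ℚ) + 1 - 4 * j) ≠ 0 := by
  have : (4 * (m : ℤ) + 1 - 4 * j) ≠ 0 := by omega
  exact_mod_cast this

theorem ne3 (m j : ℕ) : (4 * (m : ℚ) - 4 * j - 3) ≠ 0 := by
  have : (4 * (m : ℤ) - 4 * j - 3) ≠ 0 := by omega
  exact_mod_cast this

theorem t_zero {n j : ℕ} (h : n < 2 * j) : t n j = 0 := by
  induction j with
  | zero => omega
  | succ j ih =>
    rw [t]
    by_cases h1 : n < 2 * j
    · rw [ih h1, zero_mul]
    · have : n = 2 * j ∨ n = 2 * j + 1 := by omega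
      rcases this with rfl | rfl
      · push_cast; simp
      · push_cast; simp

theorem sum_ext {n J : ℕ} (h : n + 1 ≤ J) : ∑ j ∈ range J, t n j = ∑ j ∈ range (n + 1), t n j := by
  symm
  apply Finset.sum_subset (Finset.range_subset_range.mpr h)
  intro x _ hx
  rw [Finset.mem_range] at hx
  exact t_zero (by omega)

theorem rel (m j : ℕ) : t m j * ((m + 1) * (4 * m + 1 - 4 * j)) =
    ((m + 1 - 2 * j) * (4 * m + 1)) * t (m + 1) j := by
  induction j with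
  | zero => simp [t]
  | succ j ih =>
    have h1 := ne1 m j
    have h2 := ne3 m j
    have h3 := ne3 (m + 1) j
    have h4 : ((j : ℚ) + 1) ≠ 0 := by positivity
    have h5 : (4 * (j : ℚ) + 3) ≠ 0 := by positivity
    rw [t, t]
    push_cast at h3 ⊢
    have h3' : (4 * ((m : ℚ) + 1) - 4 * j - 3) = 4 * m + 1 - 4 * j := by ring
    rw [h3']
    have h2a : 4 * ((m : ℚ) - j) - 3 ≠ 0 := by intro h; apply h2; linarith
    have h2b : (m : ℚ) * 4 - j * 4 - 3 ≠ 0 := by intro h; apply h2; linarith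
    have h2c : ((m : ℚ) - j) * 4 - 3 ≠ 0 := by intro h; apply h2; linarith
    have h1a : (m : ℚ) * 4 + 1 - 4 * j ≠ 0 := by intro h; apply h1; linarith
    have h1b : (m : ℚ) * 4 + 1 - j * 4 ≠ 0 := by intro h; apply h1; linarith
    have h1c : 4 * (m : ℚ) + 1 - j * 4 ≠ 0 := by intro h; apply h1; linarith
    have h5a : (j : ℚ) * 4 + 3 ≠ 0 := by positivity
    have e1 : t m j * (-((2 * (j : ℚ) + 1) ^ 2 * (m - 2 * j) * (m - 2 * j - 1)) /
        ((j + 1) ^ 2 * (4 * j + 3) * (4 * m - 4 * j - 3))) *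
        ((m + 1) * (4 * m + 1 - 4 * (j + 1))) =
        t m j * ((m + 1) * (4 * m + 1 - 4 * j)) *
        (-((2 * (j : ℚ) + 1) ^ 2 * (m - 2 * j) * (m - 2 * j - 1)) /
        ((j + 1) ^ 2 * (4 * j + 3) * (4 * m + 1 - 4 * j))) := by
      field_simp
      ring
    rw [e1, ih]
    field_simp
    ring

theorem Kh_rec (m : ℕ) : ((m + 2) * (2 * m + 3) * (4 * m + 7) : ℚ) * Kh (m + 2) =
    ((4 * m + 5) * (4 * m ^ 2 + 10 * m + 7)) * Kh (m + 1)
      - ((2 * m + 1) * (m + 1) * (4 * m + 3)) * Kh m := by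
  have hs2 : Kh (m + 2) = a (m + 2) * ∑ j ∈ range (m + 3), t (m + 2) j := rfl
  have hs1 : Kh (m + 1) = a (m + 1) * ∑ j ∈ range (m + 3), t (m + 1) j := by
    rw [Kh, sum_ext (by omega : m + 1 + 1 ≤ m + 3)]
  have hs0 : Kh m = a m * ∑ j ∈ range (m + 3), t m j := by
    rw [Kh, sum_ext (by omega : m + 1 ≤ m + 3)]
  have key : ∀ j : ℕ, ((m + 2) * (2 * m + 3) * (4 * m + 7) : ℚ) * (a (m + 2) * t (m + 2) j)
      - ((4 * m + 5) * (4 * m ^ 2 + 10 * m + 7)) * (a (m + 1) * t (m + 1) j)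
      + ((2 * m + 1) * (m + 1) * (4 * m + 3)) * (a m * t m j) =
      (-4 * (2 * m + 1) * ((j + 1 : ℕ) : ℚ) ^ 2 * (4 * ((j + 1 : ℕ) : ℚ) - 1) /
        ((m + 2) * (4 * m + 5 - 4 * ((j + 1 : ℕ) : ℚ))) * (a (m + 2) * (4 * m + 7) * t (m + 2) (j + 1)))
      - (-4 * (2 * m + 1) * (j : ℚ) ^ 2 * (4 * (j : ℚ) - 1) /
        ((m + 2) * (4 * m + 5 - 4 * (j : ℚ))) * (a (m + 2) * (4 * m + 7) * t (m + 2) j)) := by
    intro j
    have n1 := ne1 m j
    have n2 := ne1 (m + 1) j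
    have n3 := ne1 m j
    push_cast at n2
    have n2' : (4 * (m : ℚ) + 5 - 4 * j) ≠ 0 := by
      intro h; apply n2; linarith
    have p1 : ((m : ℚ) + 1) ≠ 0 := by positivity
    have p2 : ((m : ℚ) + 2) ≠ 0 := by positivity
    have p3 : ((4 * m : ℚ) + 1) ≠ 0 := by positivity
    have p4 : ((4 * m : ℚ) + 3) ≠ 0 := by positivity
    have p5 : ((4 * m : ℚ) + 5) ≠ 0 := by positivity
    have p7 : ((4 * m : ℚ) + 7) ≠ 0 := by positivity
    have p8 : ((j : ℚ) + 1) ≠ 0 := by positivity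
    have p9 : ((4 * j : ℚ) + 3) ≠ 0 := by positivity
    have ht1 : t (m + 1) j = (m + 2 - 2 * j) * (4 * m + 5) /
        ((m + 2) * (4 * m + 5 - 4 * j)) * t (m + 2) j := by
      have h := rel (m + 1) j
      push_cast at h
      rw [div_mul_eq_mul_div, eq_div_iff (mul_ne_zero p2 n2')]
      linear_combination h
    have ht0 : t m j = (m + 1 - 2 * j) * (4 * m + 1) /
        ((m + 1) * (4 * m + 1 - 4 * j)) * t (m + 1) j := by
      have h := rel m j
      rw [div_mul_eq_mul_div, eq_div_iff (mul_ne_zero p1 n1)]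
      linear_combination h
    have ha1 : a (m + 1) = a m * (4 * m + 1) / (4 * m + 3) := rfl
    have ha2 : a (m + 2) = a (m + 1) * (4 * m + 5) / (4 * m + 7) := by
      rw [a]; push_cast; ring_nf
    have h2t : t (m + 2) (j + 1) = t (m + 2) j * (-((2 * j + 1) ^ 2 * (m + 2 - 2 * j) *
        (m + 1 - 2 * j)) / ((j + 1) ^ 2 * (4 * j + 3) * (4 * m + 5 - 4 * j))) := by
      rw [t]; push_cast
      have e1 : (4 * ((m : ℚ) + 2) - 4 * j - 3) = 4 * m + 5 - 4 * j := by ring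
      have e2 : ((m : ℚ) + 2 - 2 * j - 1) = m + 1 - 2 * j := by ring
      rw [e1, e2]
    have e3 : (4 * (m : ℚ) + 5 - 4 * ((j + 1 : ℕ) : ℚ)) = 4 * m + 1 - 4 * j := by push_cast; ring
    rw [e3, h2t, ha2, ha1, ht0, ht1]
    push_cast
    have q1 : (m : ℚ) * 4 + 1 - 4 * j ≠ 0 := by intro h; apply n1; linarith
    have q2 : (m : ℚ) * 4 + 1 - j * 4 ≠ 0 := by intro h; apply n1; linarith
    have q3 : 4 * (m : ℚ) + 1 - j * 4 ≠ 0 := by intro h; apply n1; linarith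
    have q4 : (m : ℚ) * 4 + 5 - 4 * j ≠ 0 := by intro h; apply n2'; linarith
    have q5 : (m : ℚ) * 4 + 5 - j * 4 ≠ 0 := by intro h; apply n2'; linarith
    have q6 : 4 * (m : ℚ) + 5 - j * 4 ≠ 0 := by intro h; apply n2'; linarith
    have r1 : (m : ℚ) * 4 + 1 ≠ 0 := by positivity
    have r3 : (m : ℚ) * 4 + 3 ≠ 0 := by positivity
    have r5 : (m : ℚ) * 4 + 5 ≠ 0 := by positivity
    have r7 : (m : ℚ) * 4 + 7 ≠ 0 := by positivity
    have r9 : (j : ℚ) * 4 + 3 ≠ 0 := by positivity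
    field_simp
    ring
  have hsum := Finset.sum_congr rfl (fun j (_ : j ∈ range (m + 3)) => key j)
  rw [Finset.sum_range_sub (fun j : ℕ => (-4 * (2 * m + 1) * (j : ℚ) ^ 2 * (4 * (j : ℚ) - 1) /
        ((m + 2) * (4 * m + 5 - 4 * (j : ℚ))) * (a (m + 2) * (4 * m + 7) * t (m + 2) j))),
    t_zero (by omega : m + 2 < 2 * (m + 3)), Finset.sum_add_distrib, Finset.sum_sub_distrib,
    ← Finset.mul_sum, ← Finset.mul_sum, ← Finset.mul_sum, ← Finset.mul_sum, ← Finset.mul_sum,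
    ← Finset.mul_sum, ← hs2, ← hs1, ← hs0] at hsum
  simp only [Nat.cast_zero] at hsum
  linear_combination hsum

end Pool.Agent.Q95.HQ
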