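import Pool.Agent.Q95.HQ.A

namespace Pool.Agent.Q95.HQ

open Finset

theorem chs (n k : ℕ) : (n.choose (k + 1) : ℚ) * (k + 1) = n.choose k * ((n : ℚ) - k) := by
  have h := Nat.choose_succ_right_eq n k
  rcases Nat.lt_or_ge n k with hk | hk
  · rw [Nat.choose_eq_zero_of_lt hk, Nat.choose_eq_zero_of_lt (by omega : n < k + 1)]; simp
  · have h' : ((n.choose (k + 1) * (k + 1) : ℕ) : ℚ) = ((n.choose k * (n - k) : ℕ) : ℚ) := by
      exact_mod_cast h
    push_cast [Nat.cast_sub hk] at h'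
    exact h'

def W (n : ℕ) : ℕ → ℤ
  | 0 => 1
  | j + 1 => W n j * ((4 * j + 3) * (4 * n - 4 * j - 3))

theorem W_odd (n j : ℕ) : Odd (W n j) := by
  induction j with
  | zero => exact odd_one
  | succ j ih =>
    rw [W]
    refine ih.mul (Odd.mul ?_ ?_)
    · exact ⟨2 * j + 1, by ring⟩
    · exact ⟨2 * n - 2 * j - 2, by ring⟩

def O : ℕ → ℤ
  | 0 => 1
  | j + 1 => O j * (2 * j + 1)

theorem t_W (n j : ℕ) : t n j * (W n j : ℚ) =
    (-1) ^ j * (Nat.centralBinom j : ℚ) * (O j : ℚ) ^ 2 * (n.choose (2 * j) : ℚ) := by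
  induction j with
  | zero => simp [t, W, O]
  | succ j ih =>
    have h3 := ne3 n j
    have h4 : ((j : ℚ) + 1) ≠ 0 := by positivity
    have h5 : (4 * (j : ℚ) + 3) ≠ 0 := by positivity
    have c1 : ((j : ℚ) + 1) * (Nat.centralBinom (j + 1) : ℚ) = 2 * (2 * j + 1) * Nat.centralBinom j := by
      exact_mod_cast Nat.succ_mul_centralBinom_succ j
    have c2 := chs n (2 * j)
    have c3 := chs n (2 * j + 1)
    push_cast at c2 c3
    have e : t n (j + 1) * (W n (j + 1) : ℚ) = (t n j * (W n j : ℚ)) *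
        (-((2 * j + 1) ^ 2 * (n - 2 * j) * (n - 2 * j - 1)) / (j + 1) ^ 2) := by
      rw [t, W]
      push_cast
      rw [div_eq_mul_inv, div_eq_mul_inv, mul_inv, mul_inv]
      have i1 : (4 * (j : ℚ) + 3)⁻¹ * (4 * j + 3) = 1 := inv_mul_cancel₀ h5
      have i2 : (4 * (n : ℚ) - 4 * j - 3)⁻¹ * (4 * n - 4 * j - 3) = 1 := inv_mul_cancel₀ h3
      linear_combination
        (t n j * (W n j : ℚ) * (-((2 * (j : ℚ) + 1) ^ 2 * (n - 2 * j) * (n - 2 * j - 1)) * ((j + 1) ^ 2)⁻¹)) *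
          ((4 * (n : ℚ) - 4 * j - 3)⁻¹ * (4 * n - 4 * j - 3)) * i1 +
        (t n j * (W n j : ℚ) * (-((2 * (j : ℚ) + 1) ^ 2 * (n - 2 * j) * (n - 2 * j - 1)) * ((j + 1) ^ 2)⁻¹)) * i2
    rw [e, ih, O]
    have h2 : 2 * (j + 1) = 2 * j + 1 + 1 := by ring
    rw [h2]
    push_cast
    have h6 : ((j : ℚ) + 1) ^ 2 ≠ 0 := by positivity
    rw [← mul_div_assoc, div_eq_iff h6]
    have c4 : (n.choose (2 * j + 1 + 1) : ℚ) * (2 * (j + 1)) * (2 * j + 1) =
        n.choose (2 * j) * ((n : ℚ) - 2 * j) * (n - 2 * j - 1) := by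
      linear_combination (2 * (j : ℚ) + 1) * c3 + ((n : ℚ) - 2 * j - 1) * c2
    linear_combination
      ((-1 : ℚ) ^ j * (Nat.centralBinom j : ℚ) * (O j : ℚ) ^ 2 * (2 * j + 1) ^ 2) * c4
        + ((-1 : ℚ) ^ j * (O j : ℚ) ^ 2 * (2 * j + 1) ^ 2 * (n.choose (2 * j + 1 + 1) : ℚ) * (j + 1)) * c1

theorem t_int (n j : ℕ) : Z2 (t n j) := by
  apply Z2.of_mul_odd (W_odd n j)
  rw [t_W]
  have h1 : Z2 ((-1 : ℚ) ^ j) := by
    have := Z2.int ((-1) ^ j)
    push_cast at this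
    exact this
  have h2 : Z2 ((O j : ℚ) ^ 2) := by
    have := Z2.int ((O j) ^ 2)
    push_cast at this
    exact this
  exact ((h1.mul (Z2.nat _)).mul h2).mul (Z2.nat _)

theorem a_int (n : ℕ) : Z2 (a n) := by
  induction n with
  | zero => exact Z2.one
  | succ n ih =>
    have ho : Odd ((4 * (n : ℤ) + 3)) := ⟨2 * n + 1, by ring⟩
    apply Z2.of_mul_odd ho
    have h : (4 * (n : ℚ) + 3) ≠ 0 := by positivity
    have : a (n + 1) * ((4 * (n : ℤ) + 3 : ℤ) : ℚ) = a n * ((4 * (n : ℤ) + 1 : ℤ) : ℚ) := by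
      rw [a]; push_cast; rw [div_mul_cancel₀ _ h]
    rw [this]
    exact ih.mul (Z2.int _)

theorem Kh_int (n : ℕ) : Z2 (Kh n) := (a_int n).mul (Z2.sum _ fun j _ => t_int n j)

end Pool.Agent.Q95.HQ
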