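import Pool.Agent.Q95.HQ.B

/-! Power series part. -/

namespace Pool.Agent.Q95.HQ

open Finset PowerSeries

/-! ### theta operator -/

theorem coeff_th (f : ℚ⟦X⟧) (n : ℕ) : coeff n (X * d⁄dX ℚ f) = (n : ℚ) * coeff n f := by
  cases n with
  | zero => simp
  | succ n =>
    rw [coeff_succ_X_mul, coeff_derivative]
    push_cast; ring

theorem D_mul (f g : ℚ⟦X⟧) : d⁄dX ℚ (f * g) = f * d⁄dX ℚ g + g * d⁄dX ℚ f := by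
  rw [Derivation.leibniz, smul_eq_mul, smul_eq_mul]

theorem D_X : d⁄dX ℚ (X : ℚ⟦X⟧) = 1 := derivative_X

/-! ### the series `1/(1+X)` and `τ = X/(1+X)^2` -/

noncomputable def I : ℚ⟦X⟧ := mk fun n => (-1) ^ n

theorem hz : (1 + X) * I = 1 := by
  ext n
  cases n with
  | zero => simp [I, add_mul]
  | succ n =>
    rw [add_mul, one_mul, map_add, coeff_succ_X_mul, I, coeff_mk, coeff_mk, coeff_one]
    simp [pow_succ]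

theorem one_X_ne : (1 + X : ℚ⟦X⟧) ≠ 0 := by
  intro h
  have := hz
  rw [h, zero_mul] at this
  exact zero_ne_one this

theorem DI : d⁄dX ℚ I = -I ^ 2 := by
  have h : d⁄dX ℚ ((1 + X) * I) = 0 := by rw [hz]; exact map_one_eq_zero' 
  rw [D_mul, map_add, D_X, map_one_eq_zero', zero_add, mul_one] at h
  have : (1 + X) * (d⁄dX ℚ I + I ^ 2) = 0 := by
    linear_combination h + I * hz
  rcases mul_eq_zero.mp this with h1 | h1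
  · exact absurd h1 one_X_ne
  · linear_combination h1
  where map_one_eq_zero' : d⁄dX ℚ (1 : ℚ⟦X⟧) = 0 := (d⁄dX ℚ).map_one_eq_zero

noncomputable def tau : ℚ⟦X⟧ := X * I ^ 2

theorem D_one : d⁄dX ℚ (1 : ℚ⟦X⟧) = 0 := (d⁄dX ℚ).map_one_eq_zero

theorem D_1X : d⁄dX ℚ (1 - X : ℚ⟦X⟧) = -1 := by
  rw [map_sub, D_one, D_X, zero_sub]

theorem DI3 : d⁄dX ℚ (I ^ 3) = -3 * I ^ 4 := by
  rw [pow_succ, pow_two, D_mul, D_mul, DI]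
  ring

theorem D_tau : d⁄dX ℚ tau = I ^ 3 * (1 - X) := by
  rw [tau, pow_two, D_mul, D_mul, DI, D_X]
  linear_combination (-I ^ 2) * hz

theorem D_tau2 : d⁄dX ℚ (I ^ 3 * (1 - X)) = I ^ 4 * (2 * X - 4) := by
  rw [D_mul, DI3, D_1X]
  linear_combination (I ^ 3) * hz

theorem hs : HasSubst tau := HasSubst.of_constantCoeff_zero' (by simp [tau])

/-- substitution of `τ` -/
noncomputable def ph : ℚ⟦X⟧ →ₐ[ℚ] ℚ⟦X⟧ := substAlgHom hs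

theorem ph_eq (f : ℚ⟦X⟧) : ph f = f.subst tau := by
  rw [ph, coe_substAlgHom]

theorem ph_X : ph X = tau := substAlgHom_X hs

theorem D_ph (f : ℚ⟦X⟧) : d⁄dX ℚ (ph f) = ph (d⁄dX ℚ f) * (I ^ 3 * (1 - X)) := by
  rw [ph_eq, ph_eq, derivative_subst hs, D_tau]

/-- the transformed differential equation -/
theorem EF {f : ℚ⟦X⟧}
    (hf : 4 * X * (1 - 4 * X) * d⁄dX ℚ (d⁄dX ℚ f) + (2 - 24 * X) * d⁄dX ℚ f - f = 0) :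
    4 * X * (1 - X) * (1 + X) ^ 2 * d⁄dX ℚ (d⁄dX ℚ (ph f))
      + 2 * (1 + X) ^ 2 * (1 - 3 * X) * d⁄dX ℚ (ph f) - (1 - X) * ph f = 0 := by
  have h := congrArg ph hf
  simp only [map_add, map_sub, map_mul, map_zero, map_one, map_ofNat, ph_X] at h
  rw [D_ph, D_mul, D_ph, D_tau2]
  rw [tau] at h
  set A0 := ph f
  set A1 := ph (d⁄dX ℚ f)
  set A2 := ph (d⁄dX ℚ (d⁄dX ℚ f))
  have z := hz
  linear_combination (1 - X) * h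
    + (4 * X * (1 - X) * I ^ 2 * ((1 + X) * I + 1) * (((1 + X) * I) ^ 2 + 1 - 4 * X * I ^ 2)) * A2 * z
    + (1 - X) * (((1 + X) * I + 1) * (8 * X * (X - 2) * I ^ 2 + 2 * (1 - 3 * X) * I)
        + 8 * X * I + 2) * A1 * z

theorem D_two (f : ℚ⟦X⟧) : d⁄dX ℚ (2 * f) = 2 * d⁄dX ℚ f := by
  rw [two_mul, map_add, two_mul]

theorem D_nat (n : ℕ) : d⁄dX ℚ ((n : ℚ⟦X⟧)) = 0 := (d⁄dX ℚ).map_natCast n

theorem D_ofNat (n : ℕ) [n.AtLeastTwo] : d⁄dX ℚ ((OfNat.ofNat n : ℚ⟦X⟧)) = 0 := by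
  have := D_nat (OfNat.ofNat n)
  rwa [Nat.cast_ofNat] at this

theorem D_2 : d⁄dX ℚ (2 : ℚ⟦X⟧) = 0 := D_ofNat 2
theorem D_3 : d⁄dX ℚ (3 : ℚ⟦X⟧) = 0 := D_ofNat 3
theorem D_4 : d⁄dX ℚ (4 : ℚ⟦X⟧) = 0 := D_ofNat 4

/-- the third order equation for `K = I F²` -/
theorem E3 {F : ℚ⟦X⟧}
    (hF : 4 * X * (1 - X) * (1 + X) ^ 2 * d⁄dX ℚ (d⁄dX ℚ F)
      + 2 * (1 + X) ^ 2 * (1 - 3 * X) * d⁄dX ℚ F - (1 - X) * F = 0) :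
    2 * X * (1 - X ^ 2) ^ 2 * d⁄dX ℚ (d⁄dX ℚ (d⁄dX ℚ (I * F ^ 2)))
      + 3 * (1 - 5 * X ^ 2) * (1 - X ^ 2) * d⁄dX ℚ (d⁄dX ℚ (I * F ^ 2))
      + 8 * X * (3 * X ^ 2 - 2) * d⁄dX ℚ (I * F ^ 2)
      + 2 * (3 * X ^ 2 - 1) * (I * F ^ 2) = 0 := by
  have h' : 4 * X * (1 - X) * (1 + X) ^ 2 * d⁄dX ℚ (d⁄dX ℚ (d⁄dX ℚ F))
      + ((1 + X) * (4 + 4 * X - 16 * X ^ 2) + 2 * (1 + X) ^ 2 * (1 - 3 * X)) * d⁄dX ℚ (d⁄dX ℚ F)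
      + ((1 + X) * (-2 - 18 * X) - (1 - X)) * d⁄dX ℚ F + F = 0 := by
    have h := congrArg (d⁄dX ℚ) hF
    simp only [map_add, map_sub, D_mul, map_zero, D_one, D_X, D_2, D_3, D_4, pow_succ, pow_zero, one_mul] at h
    linear_combination h
  have e1 : d⁄dX ℚ (I * F ^ 2) = -I ^ 2 * F ^ 2 + 2 * I * F * d⁄dX ℚ F := by
    rw [pow_two F, D_mul, D_mul, DI]; ring
  have e2 : d⁄dX ℚ (d⁄dX ℚ (I * F ^ 2)) = 2 * I ^ 3 * F ^ 2 - 4 * I ^ 2 * F * d⁄dX ℚ F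
      + 2 * I * (d⁄dX ℚ F ^ 2 + F * d⁄dX ℚ (d⁄dX ℚ F)) := by
    rw [e1]
    simp only [map_add, map_sub, map_neg, D_mul, D_2, D_3, D_4, pow_succ, pow_zero, one_mul, DI]
    ring
  have e3 : d⁄dX ℚ (d⁄dX ℚ (d⁄dX ℚ (I * F ^ 2))) = -6 * I ^ 4 * F ^ 2 + 12 * I ^ 3 * F * d⁄dX ℚ F
      - 6 * I ^ 2 * (d⁄dX ℚ F ^ 2 + F * d⁄dX ℚ (d⁄dX ℚ F))
      + 2 * I * (3 * d⁄dX ℚ F * d⁄dX ℚ (d⁄dX ℚ F) + F * d⁄dX ℚ (d⁄dX ℚ (d⁄dX ℚ F))) := by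
    rw [e2]
    simp only [map_add, map_sub, map_neg, D_mul, D_2, D_3, D_4, pow_succ, pow_zero, one_mul, DI]
    ring
  rw [e3, e2, e1]
  set F1 := d⁄dX ℚ F
  set F2 := d⁄dX ℚ F1
  set F3 := d⁄dX ℚ F2
  linear_combination ((1 - X) * I * F) * h' + ((X - 3) * I ^ 2 * F + 3 * (1 - X) * I * F1) * hF
    + ((-12)*X^4*I^3*F^2 + (24)*X^4*I^2*F*F1 + (-8)*X^4*I*F*F2 + (-12)*X^4*I*F1^2 + (12)*X^3*I^3*F^2 + (18)*X^3*I^2*F^2 + (-24)*X^3*I^2*F*F1 + (-30)*X^3*I*F*F1 + (12)*X^3*I*F1^2 + (12)*X^2*I^3*F^2 + (-6)*X^2*I^2*F^2 + (-24)*X^2*I^2*F*F1 + (-6)*X^2*I*F^2 + (-2)*X^2*I*F*F1 + (8)*X^2*I*F*F2 + (12)*X^2*I*F1^2 + (-12)*X*I^3*F^2 + (-18)*X*I^2*F^2 + (24)*X*I^2*F*F1 + (-1)*X*I*F^2 + (22)*X*I*F*F1 + (-12)*X*I*F1^2 + (6)*I^2*F^2 + (3)*I*F^2 + (-6)*I*F*F1) * hz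

end Pool.Agent.Q95.HQ
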