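import Pool.Agent.Q95.HQ.C

/-! Recursion for `K`, integrality, and the transfer back. -/

namespace Pool.Agent.Q95.HQ

open Finset PowerSeries

theorem cn (m : ℕ) (f : ℚ⟦X⟧) (n : ℕ) : coeff n ((m : ℚ⟦X⟧) * f) = (m : ℚ) * coeff n f := by
  rw [← nsmul_eq_mul, map_nsmul, nsmul_eq_mul]

theorem c2 (f : ℚ⟦X⟧) (n : ℕ) : coeff n (2 * f) = 2 * coeff n f := by
  have := cn 2 f n
  rwa [Nat.cast_ofNat, Nat.cast_ofNat] at this
theorem c3 (f : ℚ⟦X⟧) (n : ℕ) : coeff n (3 * f) = 3 * coeff n f := by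
  have := cn 3 f n
  rwa [Nat.cast_ofNat, Nat.cast_ofNat] at this
theorem c4 (f : ℚ⟦X⟧) (n : ℕ) : coeff n (4 * f) = 4 * coeff n f := by
  have := cn 4 f n
  rwa [Nat.cast_ofNat, Nat.cast_ofNat] at this
theorem c6 (f : ℚ⟦X⟧) (n : ℕ) : coeff n (6 * f) = 6 * coeff n f := by
  have := cn 6 f n
  rwa [Nat.cast_ofNat, Nat.cast_ofNat] at this
theorem c8 (f : ℚ⟦X⟧) (n : ℕ) : coeff n (8 * f) = 8 * coeff n f := by
  have := cn 8 f n
  rwa [Nat.cast_ofNat, Nat.cast_ofNat] at this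
theorem c9 (f : ℚ⟦X⟧) (n : ℕ) : coeff n (9 * f) = 9 * coeff n f := by
  have := cn 9 f n
  rwa [Nat.cast_ofNat, Nat.cast_ofNat] at this
theorem c13 (f : ℚ⟦X⟧) (n : ℕ) : coeff n (13 * f) = 13 * coeff n f := by
  have := cn 13 f n
  rwa [Nat.cast_ofNat, Nat.cast_ofNat] at this
theorem c16 (f : ℚ⟦X⟧) (n : ℕ) : coeff n (16 * f) = 16 * coeff n f := by
  have := cn 16 f n
  rwa [Nat.cast_ofNat, Nat.cast_ofNat] at this
theorem c24 (f : ℚ⟦X⟧) (n : ℕ) : coeff n (24 * f) = 24 * coeff n f := by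
  have := cn 24 f n
  rwa [Nat.cast_ofNat, Nat.cast_ofNat] at this

theorem th_form {K : ℚ⟦X⟧}
    (h : 2 * X * (1 - X ^ 2) ^ 2 * d⁄dX ℚ (d⁄dX ℚ (d⁄dX ℚ K))
      + 3 * (1 - 5 * X ^ 2) * (1 - X ^ 2) * d⁄dX ℚ (d⁄dX ℚ K)
      + 8 * X * (3 * X ^ 2 - 2) * d⁄dX ℚ K + 2 * (3 * X ^ 2 - 1) * K = 0) :
    2 * (X * d⁄dX ℚ (X * d⁄dX ℚ (X * d⁄dX ℚ K))) - 3 * (X * d⁄dX ℚ (X * d⁄dX ℚ K))
        + X * d⁄dX ℚ K =
      X ^ 2 * (4 * (X * d⁄dX ℚ (X * d⁄dX ℚ (X * d⁄dX ℚ K))) + 6 * (X * d⁄dX ℚ (X * d⁄dX ℚ K))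
        + 6 * (X * d⁄dX ℚ K) + 2 * K)
      - X ^ 4 * (2 * (X * d⁄dX ℚ (X * d⁄dX ℚ (X * d⁄dX ℚ K)))
        + 9 * (X * d⁄dX ℚ (X * d⁄dX ℚ K)) + 13 * (X * d⁄dX ℚ K) + 6 * K) := by
  have e2 : d⁄dX ℚ (X * d⁄dX ℚ K) = X * d⁄dX ℚ (d⁄dX ℚ K) + d⁄dX ℚ K := by
    rw [D_mul, D_X]; ring
  have e3 : d⁄dX ℚ (X * d⁄dX ℚ (X * d⁄dX ℚ K)) =
      X ^ 2 * d⁄dX ℚ (d⁄dX ℚ (d⁄dX ℚ K)) + 3 * X * d⁄dX ℚ (d⁄dX ℚ K) + d⁄dX ℚ K := by
    rw [e2, D_mul, D_X, map_add, D_mul, D_X]; ring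
  rw [e3, e2]
  linear_combination X ^ 2 * h

section rec
variable {K : ℚ⟦X⟧}
  (h : 2 * X * (1 - X ^ 2) ^ 2 * d⁄dX ℚ (d⁄dX ℚ (d⁄dX ℚ K))
      + 3 * (1 - 5 * X ^ 2) * (1 - X ^ 2) * d⁄dX ℚ (d⁄dX ℚ K)
      + 8 * X * (3 * X ^ 2 - 2) * d⁄dX ℚ K + 2 * (3 * X ^ 2 - 1) * K = 0)

include h

theorem rec4 (N : ℕ) :
    (2 * ((N : ℚ) + 4) ^ 3 - 3 * ((N : ℚ) + 4) ^ 2 + (N + 4)) * coeff (N + 4) K =
      (4 * ((N : ℚ) + 2) ^ 3 + 6 * ((N : ℚ) + 2) ^ 2 + 6 * (N + 2) + 2) * coeff (N + 2) K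
      - (2 * (N : ℚ) ^ 3 + 9 * (N : ℚ) ^ 2 + 13 * N + 6) * coeff N K := by
  have hc := congrArg (coeff (N + 4)) (th_form h)
  rw [map_sub (coeff (N + 4)) (X ^ 2 * _)] at hc
  rw [show N + 4 = (N + 2) + 2 from rfl, coeff_X_pow_mul _ _ (N + 2),
    show N + 2 + 2 = N + 4 from rfl, coeff_X_pow_mul _ _ N] at hc
  simp only [map_add, map_sub, c2, c3, c4, c6, c9, c13, coeff_th] at hc
  push_cast at hc
  linear_combination hc

theorem rec2 : 6 * coeff 2 K = 2 * coeff 0 K := by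
  have hc := congrArg (coeff 2) (th_form h)
  rw [map_sub (coeff 2) (X ^ 2 * _)] at hc
  rw [coeff_X_pow_mul', coeff_X_pow_mul'] at hc
  simp only [map_add, map_sub, c2, c3, c4, c6, c9, c13, coeff_th, le_refl, if_true, Nat.sub_self,
    show ¬ (4 ≤ 2) by norm_num, if_false] at hc
  push_cast at hc
  linear_combination hc

theorem rec3 : 30 * coeff 3 K = 18 * coeff 1 K := by
  have hc := congrArg (coeff 3) (th_form h)
  rw [map_sub (coeff 3) (X ^ 2 * _)] at hc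
  rw [coeff_X_pow_mul', coeff_X_pow_mul'] at hc
  simp only [map_add, map_sub, c2, c3, c4, c6, c9, c13, coeff_th, show (2 ≤ 3) by norm_num,
    if_true, show 3 - 2 = 1 from rfl, show ¬ (4 ≤ 3) by norm_num, if_false] at hc
  push_cast at hc
  linear_combination hc

theorem ident (h0 : coeff 0 K = 1) (h1 : coeff 1 K = 0) (n : ℕ) :
    (coeff (2 * n) K = Kh n ∧ coeff (2 * n + 1) K = 0) ∧
    (coeff (2 * (n + 1)) K = Kh (n + 1) ∧ coeff (2 * (n + 1) + 1) K = 0) := by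
  induction n with
  | zero =>
    refine ⟨⟨?_, h1⟩, ?_, ?_⟩
    · rw [show 2 * 0 = 0 from rfl, h0]
      simp [Kh, a, t]
    · have := rec2 h
      rw [h0] at this
      have hk : Kh (0 + 1) = 1 / 3 := by
        rw [Kh, Finset.sum_range_succ, Finset.sum_range_succ, t_zero (by norm_num : 0 + 1 < 2 * (0 + 1))]
        simp [a, t]
      rw [hk]
      show coeff 2 K = 1 / 3
      linarith
    · have := rec3 h
      rw [h1] at this
      show coeff 3 K = 0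
      linarith
  | succ n ih =>
    obtain ⟨⟨e0, o0⟩, e1, o1⟩ := ih
    refine ⟨⟨e1, o1⟩, ?_, ?_⟩
    · have hr := rec4 h (2 * n)
      have hK := Kh_rec n
      rw [show 2 * n + 2 = 2 * (n + 1) from by ring, show 2 * n + 4 = 2 * (n + 1 + 1) from by ring,
        e0, e1] at hr
      push_cast at hr
      have hne : (((n : ℚ) + 2) * (2 * n + 3) * (4 * n + 7)) ≠ 0 := by positivity
      apply mul_left_cancel₀ hne
      show _ = (((n : ℚ) + 2) * (2 * n + 3) * (4 * n + 7)) * Kh (n + 2)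
      rw [hK]
      linear_combination hr / 2
    · have hr := rec4 h (2 * n + 1)
      rw [show 2 * n + 1 + 2 = 2 * (n + 1) + 1 from by ring,
        show 2 * n + 1 + 4 = 2 * (n + 1 + 1) + 1 from by ring, o0, o1] at hr
      push_cast at hr
      have hne : (2 * (2 * (n : ℚ) + 1 + 4) ^ 3 - 3 * (2 * (n : ℚ) + 1 + 4) ^ 2
          + (2 * (n : ℚ) + 1 + 4)) ≠ 0 := by
        have : (0 : ℚ) ≤ n := Nat.cast_nonneg n
        have h5 : (2 * (2 * (n : ℚ) + 1 + 4) ^ 3 - 3 * (2 * (n : ℚ) + 1 + 4) ^ 2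
          + (2 * (n : ℚ) + 1 + 4)) = (2 * n + 5) * (2 * n + 4) * (4 * n + 9) := by ring
        rw [h5]; positivity
      have hz' : (2 * (2 * (n : ℚ) + 1 + 4) ^ 3 - 3 * (2 * (n : ℚ) + 1 + 4) ^ 2
          + (2 * (n : ℚ) + 1 + 4)) * coeff (2 * (n + 1 + 1) + 1) K = 0 := by
        rw [hr]; ring
      exact (mul_eq_zero.mp hz').resolve_left hne

theorem K_int (h0 : coeff 0 K = 1) (h1 : coeff 1 K = 0) (n : ℕ) : Z2 (coeff n K) := by
  rcases Nat.even_or_odd' n with ⟨m, rfl | rfl⟩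
  · rw [(ident h h0 h1 m).1.1]; exact Kh_int m
  · rw [(ident h h0 h1 m).1.2]; exact Z2.zero

end rec

/-- all coefficients have odd denominator -/
def Int2 (f : ℚ⟦X⟧) : Prop := ∀ n, Z2 (coeff n f)

theorem Int2.mul {f g : ℚ⟦X⟧} (hf : Int2 f) (hg : Int2 g) : Int2 (f * g) := by
  intro n
  rw [coeff_mul]
  exact Z2.sum _ fun p _ => (hf p.1).mul (hg p.2)

theorem Int2.one : Int2 1 := by
  intro n
  rw [coeff_one]
  split_ifs
  · exact Z2.one
  · exact Z2.zero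

theorem Int2.pow {f : ℚ⟦X⟧} (hf : Int2 f) (k : ℕ) : Int2 (f ^ k) := by
  induction k with
  | zero => rw [pow_zero]; exact Int2.one
  | succ k ih => rw [pow_succ]; exact ih.mul hf

theorem Int2.X : Int2 (X : ℚ⟦X⟧) := by
  intro n
  rw [coeff_X]
  split_ifs
  · exact Z2.one
  · exact Z2.zero

theorem Int2.add {f g : ℚ⟦X⟧} (hf : Int2 f) (hg : Int2 g) : Int2 (f + g) := by
  intro n
  rw [map_add]
  exact (hf n).add (hg n)

theorem Int2.sub {f g : ℚ⟦X⟧} (hf : Int2 f) (hg : Int2 g) : Int2 (f - g) := by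
  intro n
  rw [map_sub]
  exact (hf n).sub (hg n)

theorem Int2.I : Int2 I := by
  intro n
  rw [HQ.I, coeff_mk]
  have := Z2.int ((-1) ^ n)
  push_cast at this
  exact this

theorem Int2.tau : Int2 tau := Int2.X.mul (Int2.I.pow 2)

theorem coeff_tau_pow_of_lt {n d : ℕ} (h : n < d) : coeff n (tau ^ d) = 0 := by
  rw [tau, mul_pow, coeff_X_pow_mul', if_neg (by omega)]

theorem coeff_tau_pow_self (n : ℕ) : coeff n (tau ^ n) = 1 := by
  rw [tau, mul_pow, coeff_X_pow_mul', if_pos le_rfl, Nat.sub_self]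
  simp [HQ.I]

theorem coeff_ph (g : ℚ⟦X⟧) (n : ℕ) :
    coeff n (ph g) = ∑ d ∈ range (n + 1), coeff d g * coeff n (tau ^ d) := by
  rw [ph_eq, coeff_subst' hs]
  rw [finsum_eq_sum_of_support_subset (s := range (n + 1))]
  · rfl
  · intro d hd
    rw [Finset.coe_range, Set.mem_Iio]
    by_contra hlt
    apply hd
    show coeff d g • coeff n (tau ^ d) = 0
    rw [coeff_tau_pow_of_lt (by omega), smul_zero]

theorem transfer {g : ℚ⟦X⟧} (h : Int2 (ph g)) : Int2 g := by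
  intro n
  induction n using Nat.strong_induction_on with
  | _ n ih =>
    have hc := coeff_ph g n
    rw [Finset.sum_range_succ, coeff_tau_pow_self, mul_one] at hc
    have : coeff n g = coeff n (ph g) - ∑ d ∈ range n, coeff d g * coeff n (tau ^ d) := by
      rw [hc]; ring
    rw [this]
    refine (h n).sub (Z2.sum _ fun d hd => ?_)
    exact (ih d (Finset.mem_range.mp hd)).mul ((Int2.tau.pow d) n)

/-- square integrality for solutions of the hypergeometric equation -/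
theorem sq_int {f : ℚ⟦X⟧}
    (hf : 4 * X * (1 - 4 * X) * d⁄dX ℚ (d⁄dX ℚ f) + (2 - 24 * X) * d⁄dX ℚ f - f = 0)
    (h0 : coeff 0 f = 1) : Int2 (f ^ 2) := by
  have hE := EF hf
  have h3 := E3 hE
  set F := ph f with hF
  have F0 : coeff 0 F = 1 := by
    rw [hF, coeff_ph]; simp [h0]
  have F1 : coeff 1 F = 1 / 2 := by
    have hc := congrArg (coeff 0) hE
    simp only [coeff_zero_eq_constantCoeff, map_add, map_sub, map_mul, map_pow, map_one, map_zero,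
      constantCoeff_X, map_ofNat] at hc
    have hd : constantCoeff (d⁄dX ℚ F) = coeff 1 F := by
      rw [← coeff_zero_eq_constantCoeff_apply, coeff_derivative]; simp
    have F0' : constantCoeff F = 1 := by rw [← coeff_zero_eq_constantCoeff_apply]; exact F0
    rw [hd, F0'] at hc
    linear_combination hc / 2
  have I0 : coeff 0 I = 1 := by simp [HQ.I]
  have I1 : coeff 1 I = -1 := by simp [HQ.I]
  have K0 : coeff 0 (I * F ^ 2) = 1 := by
    rw [coeff_zero_eq_constantCoeff] at F0 I0 ⊢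
    rw [map_mul, map_pow, F0, I0]; norm_num
  have K1 : coeff 1 (I * F ^ 2) = 0 := by
    rw [pow_two, coeff_mul, Nat.sum_antidiagonal_eq_sum_range_succ_mk, Finset.sum_range_succ,
      Finset.sum_range_one]
    simp only [Nat.sub_zero, Nat.sub_self]
    rw [coeff_mul, coeff_mul, Nat.sum_antidiagonal_eq_sum_range_succ_mk,
      Nat.sum_antidiagonal_eq_sum_range_succ_mk, Finset.sum_range_succ, Finset.sum_range_one,
      Finset.sum_range_one]
    simp only [Nat.sub_zero, Nat.sub_self]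
    rw [F0, F1, I0, I1]; norm_num
  have hK : Int2 (I * F ^ 2) := K_int h3 K0 K1
  apply transfer
  rw [map_pow, ← hF]
  have : F ^ 2 = (1 + X) * (I * F ^ 2) := by
    linear_combination (-F ^ 2) * hz
  rw [this]
  exact (Int2.one.add Int2.X).mul hK

end Pool.Agent.Q95.HQ
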