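import Pool.Agent.Q95.HQ.D

/-! The Wronskian and the final statement. -/

namespace Pool.Agent.Q95.HQ

open Finset PowerSeries

def P1 (n : ℕ) : ℤ := ∏ j ∈ range n, (4 * (j : ℤ) + 3) ^ 2
def P3 (n : ℕ) : ℤ := ∏ j ∈ range n, (4 * (j : ℤ) + 1) ^ 2

noncomputable def fs : ℚ⟦X⟧ := mk fun n => (P3 n : ℚ) / ((2 * n).factorial : ℚ)
noncomputable def Ns : ℚ⟦X⟧ := mk fun n => (P1 n : ℚ) / ((2 * n + 1).factorial : ℚ)

theorem P1_succ (n : ℕ) : P1 (n + 1) = P1 n * (4 * (n : ℤ) + 3) ^ 2 := Finset.prod_range_succ _ _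
theorem P3_succ (n : ℕ) : P3 (n + 1) = P3 n * (4 * (n : ℤ) + 1) ^ 2 := Finset.prod_range_succ _ _

theorem fac_ne (n : ℕ) : ((n.factorial : ℕ) : ℚ) ≠ 0 := by exact_mod_cast Nat.factorial_ne_zero n

theorem fs_rec (n : ℕ) : (2 * (n : ℚ) + 2) * (2 * n + 1) * coeff (n + 1) fs =
    (4 * n + 1) ^ 2 * coeff n fs := by
  rw [fs, coeff_mk, coeff_mk, P3_succ]
  have h : (((2 * (n + 1)).factorial : ℕ) : ℚ) = (2 * n + 2) * (2 * n + 1) * ((2 * n).factorial : ℚ) := by
    rw [show 2 * (n + 1) = 2 * n + 1 + 1 from by ring, Nat.factorial_succ, Nat.factorial_succ]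
    push_cast; ring
  rw [h]
  have h1 := fac_ne (2 * n)
  have h2 : (2 * (n : ℚ) + 2) ≠ 0 := by positivity
  have h3 : (2 * (n : ℚ) + 1) ≠ 0 := by positivity
  push_cast
  field_simp

theorem Ns_rec (n : ℕ) : (2 * (n : ℚ) + 3) * (2 * n + 2) * coeff (n + 1) Ns =
    (4 * n + 3) ^ 2 * coeff n Ns := by
  rw [Ns, coeff_mk, coeff_mk, P1_succ]
  have h : (((2 * (n + 1) + 1).factorial : ℕ) : ℚ) =
      (2 * n + 3) * (2 * n + 2) * ((2 * n + 1).factorial : ℚ) := by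
    rw [show 2 * (n + 1) + 1 = 2 * n + 1 + 1 + 1 from by ring, Nat.factorial_succ,
      Nat.factorial_succ (2 * n + 1)]
    push_cast; ring
  rw [h]
  have h1 := fac_ne (2 * n + 1)
  have h2 : (2 * (n : ℚ) + 2) ≠ 0 := by positivity
  have h3 : (2 * (n : ℚ) + 3) ≠ 0 := by positivity
  push_cast
  field_simp

theorem X_cancel {p : ℚ⟦X⟧} (h : X * p = 0) : p = 0 :=
  (mul_eq_zero.mp h).resolve_left X_ne_zero

theorem fs_ode : 4 * X * (1 - 4 * X) * d⁄dX ℚ (d⁄dX ℚ fs) + (2 - 24 * X) * d⁄dX ℚ fs - fs = 0 := by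
  have hth : 4 * (X * d⁄dX ℚ (X * d⁄dX ℚ fs)) - 2 * (X * d⁄dX ℚ fs) =
      X * (16 * (X * d⁄dX ℚ (X * d⁄dX ℚ fs)) + 8 * (X * d⁄dX ℚ fs) + fs) := by
    ext n
    cases n with
    | zero => simp
    | succ n =>
      rw [coeff_succ_X_mul]
      simp only [map_add, map_sub, c2, c4, c8, c16, coeff_th]
      have := fs_rec n
      push_cast
      linear_combination this
  have e2 : d⁄dX ℚ (X * d⁄dX ℚ fs) = X * d⁄dX ℚ (d⁄dX ℚ fs) + d⁄dX ℚ fs := by
    rw [D_mul, D_X]; ring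
  rw [e2] at hth
  apply X_cancel
  linear_combination hth

theorem Ns_ode : 4 * X * (1 - 4 * X) * d⁄dX ℚ (d⁄dX ℚ Ns) + (6 - 40 * X) * d⁄dX ℚ Ns - 9 * Ns = 0 := by
  have hth : 4 * (X * d⁄dX ℚ (X * d⁄dX ℚ Ns)) + 2 * (X * d⁄dX ℚ Ns) =
      X * (16 * (X * d⁄dX ℚ (X * d⁄dX ℚ Ns)) + 24 * (X * d⁄dX ℚ Ns) + 9 * Ns) := by
    ext n
    cases n with
    | zero => simp
    | succ n =>
      rw [coeff_succ_X_mul]
      simp only [map_add, map_sub, c2, c4, c9, c16, c24, coeff_th]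
      have := Ns_rec n
      push_cast
      linear_combination this
  have e2 : d⁄dX ℚ (X * d⁄dX ℚ Ns) = X * d⁄dX ℚ (d⁄dX ℚ Ns) + d⁄dX ℚ Ns := by
    rw [D_mul, D_X]; ring
  rw [e2] at hth
  apply X_cancel
  linear_combination hth

theorem wronskian : (1 - 4 * X) * (Ns * fs + 2 * X * (d⁄dX ℚ Ns * fs - Ns * d⁄dX ℚ fs)) = 1 := by
  apply derivative.ext
  · rw [D_one]
    simp only [D_mul, map_add, map_sub, D_one, D_X, D_2, D_4]
    have h1 := fs_ode
    have h2 := Ns_ode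
    set f1 := d⁄dX ℚ fs
    set f2 := d⁄dX ℚ f1
    set N1 := d⁄dX ℚ Ns
    set N2 := d⁄dX ℚ N1
    have h : 2 * ((1 - 4 * X) * (3 * N1 * fs - Ns * f1 + 2 * X * (N2 * fs - Ns * f2))
        - 4 * (Ns * fs + 2 * X * (N1 * fs - Ns * f1))) = 0 := by
      linear_combination fs * h2 - Ns * h1
    have h' : (1 - 4 * X) * (3 * N1 * fs - Ns * f1 + 2 * X * (N2 * fs - Ns * f2))
        - 4 * (Ns * fs + 2 * X * (N1 * fs - Ns * f1)) = 0 := by
      have h2ne : (2 : ℚ⟦X⟧) ≠ 0 := by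
        intro h0
        have := congrArg constantCoeff h0
        rw [map_ofNat, map_zero] at this
        norm_num at this
      exact (mul_eq_zero.mp h).resolve_left h2ne
    linear_combination h'
  · simp [fs, Ns, P1, P3]

/-- a sequence satisfying the convolution relation is 2-adically divisible by `(2n+1)!` -/
theorem main (u : ℕ → ℤ)
    (hu : ∀ n, ∑ m ∈ range (n + 1), ((2 * n + 1).choose (2 * m + 1) : ℤ) * P3 (n - m) * u m = P1 n)
    (n : ℕ) : Z2 ((u n : ℚ) / ((2 * n + 1).factorial : ℚ)) := by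
  set ys : ℚ⟦X⟧ := mk fun n => (u n : ℚ) / ((2 * n + 1).factorial : ℚ) with hys
  have hmul : ys * fs = Ns := by
    ext n
    rw [coeff_mul, Nat.sum_antidiagonal_eq_sum_range_succ_mk, Ns, coeff_mk]
    have h := hu n
    have hq : ((∑ m ∈ range (n + 1), ((2 * n + 1).choose (2 * m + 1) : ℤ) * P3 (n - m) * u m : ℤ) : ℚ)
        = (P1 n : ℚ) := by exact_mod_cast h
    push_cast at hq
    rw [← hq, Finset.sum_div]
    apply Finset.sum_congr rfl
    intro m hm
    have hmn : m ≤ n := by rw [Finset.mem_range] at hm; omega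
    rw [hys, fs, coeff_mk, coeff_mk]
    have hc := Nat.choose_mul_factorial_mul_factorial (n := 2 * n + 1) (k := 2 * m + 1) (by omega)
    rw [show 2 * n + 1 - (2 * m + 1) = 2 * (n - m) from by omega] at hc
    have hcq : (((2 * n + 1).choose (2 * m + 1) : ℕ) : ℚ) * ((2 * m + 1).factorial : ℚ)
        * ((2 * (n - m)).factorial : ℚ) = ((2 * n + 1).factorial : ℚ) := by exact_mod_cast hc
    have h1 := fac_ne (2 * m + 1)
    have h2 := fac_ne (2 * (n - m))
    have h3 := fac_ne (2 * n + 1)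
    rw [← hcq] at h3 ⊢
    have h4 : (((2 * n + 1).choose (2 * m + 1) : ℕ) : ℚ) ≠ 0 := by
      intro h0; apply h3; rw [h0]; ring
    field_simp
  have hw := wronskian
  rw [← hmul] at hw
  have hG : (1 - 4 * X) * fs ^ 2 * (ys + 2 * (X * d⁄dX ℚ ys)) = 1 := by
    rw [D_mul] at hw
    linear_combination hw
  have hfs0 : coeff 0 fs = 1 := by simp [fs, P3]
  have hsq : Int2 (fs ^ 2) := sq_int fs_ode hfs0
  have hlin : Int2 (1 - 4 * X : ℚ⟦X⟧) := by
    apply Int2.one.sub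
    intro n
    rw [c4]
    exact (Z2.nat 4).mul (Int2.X n)
  set G : ℚ⟦X⟧ := (1 - 4 * X) * fs ^ 2 with hGdef
  have hGint : Int2 G := hlin.mul hsq
  have hG0 : coeff 0 G = 1 := by
    have := hfs0
    rw [coeff_zero_eq_constantCoeff] at this ⊢
    simp [hGdef, this]
  set Y : ℚ⟦X⟧ := ys + 2 * (X * d⁄dX ℚ ys) with hY
  have hYc : ∀ n, coeff n Y = coeff n ys * ((2 * n + 1 : ℤ) : ℚ) := by
    intro n
    rw [hY, map_add, c2, coeff_th]
    push_cast; ring
  have hYint : ∀ n, Z2 (coeff n Y) := by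
    intro n
    induction n using Nat.strong_induction_on with
    | _ n ih =>
      have hc := congrArg (coeff n) hG
      rw [mul_comm, coeff_mul, Nat.sum_antidiagonal_eq_sum_range_succ_mk, Finset.sum_range_succ] at hc
      simp only [Nat.sub_self, hG0, mul_one] at hc
      have : coeff n Y = coeff n (1 : ℚ⟦X⟧) - ∑ k ∈ range n, coeff k Y * coeff (n - k) G := by
        rw [← hc]; ring
      rw [this]
      refine (Int2.one n).sub (Z2.sum _ fun k hk => ?_)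
      exact (ih k (Finset.mem_range.mp hk)).mul (hGint _)
  have hfin : Z2 (coeff n ys) := by
    have h := hYint n
    rw [hYc] at h
    exact Z2.of_mul_odd ⟨n, rfl⟩ h
  rwa [hys, coeff_mk] at hfin

end Pool.Agent.Q95.HQ
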