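import Pool.Agent.Q95.HQ.E

/-! Contiguous series. -/

namespace Pool.Agent.Q95.HQ

open Finset PowerSeries

/-- rising factorial -/
def poch (x : ℚ) (n : ℕ) : ℚ := ∏ i ∈ range n, (x + i)

/-- `₂F₁(α, β; γ; 4t)` -/
noncomputable def hyp (α β γ : ℚ) : ℚ⟦X⟧ :=
  mk fun n => poch α n * poch β n / (poch γ n * (n.factorial : ℚ)) * 4 ^ n

theorem poch_succ (x : ℚ) (n : ℕ) : poch x (n + 1) = poch x n * (x + n) :=
  Finset.prod_range_succ _ _

theorem poch_shift (x : ℚ) (n : ℕ) : x * poch (x + 1) n = poch x n * (x + n) := by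
  induction n with
  | zero => simp [poch]
  | succ n ih =>
    rw [poch_succ, poch_succ]
    push_cast
    linear_combination (x + 1 + n) * ih

theorem poch_ne {x : ℚ} (hx : 0 < x) (n : ℕ) : poch x n ≠ 0 := by
  have : 0 < poch x n := Finset.prod_pos fun i _ => by positivity
  exact this.ne'

theorem hyp_rec {α β γ : ℚ} (hγ : 0 < γ) (n : ℕ) :
    (γ + n) * (n + 1) * coeff (n + 1) (hyp α β γ) = 4 * (α + n) * (β + n) * coeff n (hyp α β γ) := by
  rw [hyp, coeff_mk, coeff_mk, poch_succ, poch_succ, poch_succ, Nat.factorial_succ]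
  have h1 := poch_ne hγ n
  have h2 := fac_ne n
  have h3 : (γ + n) ≠ 0 := by positivity
  have h4 : ((n : ℚ) + 1) ≠ 0 := by positivity
  push_cast
  field_simp
  ring

theorem hyp_zero (α β γ : ℚ) : coeff 0 (hyp α β γ) = 1 := by
  simp [hyp, poch]

theorem fs_zero : coeff 0 fs = 1 := by simp [fs, P3]

theorem fs_eq : fs = hyp (1 / 4) (1 / 4) (1 / 2) := by
  ext n
  induction n with
  | zero => rw [hyp_zero, fs_zero]
  | succ n ih =>
    have h1 := fs_rec n
    have h2 := hyp_rec (α := 1 / 4) (β := 1 / 4) (γ := 1 / 2) (by norm_num) n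
    have hne : (2 * (n : ℚ) + 2) * (2 * n + 1) ≠ 0 := by positivity
    apply mul_left_cancel₀ hne
    rw [h1, ih]
    linear_combination (-4 : ℚ) * h2

theorem Ns_eq : Ns = hyp (3 / 4) (3 / 4) (3 / 2) := by
  ext n
  induction n with
  | zero => rw [hyp_zero]; simp [Ns, P1]
  | succ n ih =>
    have h1 := Ns_rec n
    have h2 := hyp_rec (α := 3 / 4) (β := 3 / 4) (γ := 3 / 2) (by norm_num) n
    have hne : (2 * (n : ℚ) + 3) * (2 * n + 2) ≠ 0 := by positivity
    apply mul_left_cancel₀ hne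
    rw [h1, ih]
    linear_combination (-4 : ℚ) * h2

theorem raise_a {α β γ : ℚ} (hα : α ≠ 0) :
    hyp (α + 1) β γ = hyp α β γ + C (1 / (2 * α)) * (X * (2 * d⁄dX ℚ (hyp α β γ))) := by
  ext n
  rw [map_add, coeff_C_mul, show X * (2 * d⁄dX ℚ (hyp α β γ)) = 2 * (X * d⁄dX ℚ (hyp α β γ)) from by ring,
    c2, coeff_th]
  rw [hyp, hyp, coeff_mk, coeff_mk]
  have h := poch_shift α n
  have h' : poch (α + 1) n = poch α n * (α + n) / α := by
    rw [eq_div_iff hα]; linear_combination h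
  rw [h']
  field_simp

theorem hyp_symm (α β γ : ℚ) : hyp α β γ = hyp β α γ := by
  ext n
  rw [hyp, hyp, coeff_mk, coeff_mk, mul_comm (poch α n)]

theorem raise_c {α β γ : ℚ} (hγ : 0 < γ) (h1 : γ - α ≠ 0) (h2 : γ - β ≠ 0) :
    hyp α β (γ + 1) = C (γ / (8 * ((γ - α) * (γ - β)))) * ((1 - 4 * X) * (2 * d⁄dX ℚ (hyp α β γ)))
      + C (γ * (γ - α - β) / ((γ - α) * (γ - β))) * hyp α β γ := by
  ext n
  rw [map_add, coeff_C_mul, coeff_C_mul,
    show (1 - 4 * X) * (2 * d⁄dX ℚ (hyp α β γ)) =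
      2 * d⁄dX ℚ (hyp α β γ) - 8 * (X * d⁄dX ℚ (hyp α β γ)) from by ring,
    map_sub, c2, c8, coeff_th, coeff_derivative]
  have hr := hyp_rec (α := α) (β := β) hγ n
  have hn : (γ + n) ≠ 0 := by positivity
  have hc : coeff n (hyp α β (γ + 1)) * (γ + n) = coeff n (hyp α β γ) * γ := by
    rw [hyp, hyp, coeff_mk, coeff_mk]
    have h := poch_shift γ n
    have h3 := poch_ne hγ n
    have h4 := poch_ne (by linarith : 0 < γ + 1) n
    have h5 := fac_ne n
    field_simp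
    linear_combination (-(poch α n * poch β n)) * h
  have hs : coeff (n + 1) (hyp α β γ) * ((n : ℚ) + 1) =
      4 * (α + n) * (β + n) * coeff n (hyp α β γ) / (γ + n) := by
    rw [eq_div_iff hn]; linear_combination hr
  have hc' : coeff n (hyp α β (γ + 1)) = coeff n (hyp α β γ) * γ / (γ + n) := by
    rw [eq_div_iff hn]; exact hc
  rw [hs, hc']
  field_simp
  ring

/-- inverse of an integral series with constant term one -/
theorem inv_int {f h : ℚ⟦X⟧} (hf : Int2 f) (h0 : coeff 0 f = 1) (hh : h * f = 1) : Int2 h := by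
  intro n
  induction n using Nat.strong_induction_on with
  | _ n ih =>
    have hc := congrArg (coeff n) hh
    rw [coeff_mul, Nat.sum_antidiagonal_eq_sum_range_succ_mk, Finset.sum_range_succ] at hc
    simp only [Nat.sub_self, h0, mul_one] at hc
    have : coeff n h = coeff n (1 : ℚ⟦X⟧) - ∑ k ∈ range n, coeff k h * coeff (n - k) f := by
      rw [← hc]; ring
    rw [this]
    refine (Int2.one n).sub (Z2.sum _ fun k hk => ?_)
    exact (ih k (Finset.mem_range.mp hk)).mul (hf _)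

theorem Int2.D {f : ℚ⟦X⟧} (hf : Int2 f) : Int2 (d⁄dX ℚ f) := by
  intro n
  rw [coeff_derivative]
  exact (hf _).mul (by simpa using Z2.nat (n + 1))

theorem Int2.C {c : ℚ} (hc : Z2 c) : Int2 (C c) := by
  intro n
  rw [coeff_C]
  split_ifs
  · exact hc
  · exact Z2.zero

theorem fs_ne : fs ≠ 0 := by
  intro h
  have := fs_zero
  rw [h] at this
  simp at this

theorem two_int : Int2 (2 : ℚ⟦X⟧) := by
  have : (2 : ℚ⟦X⟧) = PowerSeries.C (2 : ℚ) := (map_ofNat _ 2).symm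
  rw [this]
  exact Int2.C (by simpa using Z2.nat 2)

theorem fs_D : ∃ r, Int2 r ∧ 2 * d⁄dX ℚ fs = r * fs := by
  have hsq : Int2 (fs ^ 2) := sq_int fs_ode fs_zero
  have h0 : constantCoeff fs = 1 := by
    rw [← coeff_zero_eq_constantCoeff_apply]; exact fs_zero
  have hs0 : coeff 0 (fs ^ 2) = 1 := by
    rw [coeff_zero_eq_constantCoeff_apply, map_pow, h0, one_pow]
  have hinv : (fs ^ 2)⁻¹ * fs ^ 2 = 1 := by
    apply PowerSeries.inv_mul_cancel
    rw [map_pow, h0]; norm_num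
  have hi := inv_int hsq hs0 hinv
  refine ⟨d⁄dX ℚ (fs ^ 2) * (fs ^ 2)⁻¹, hsq.D.mul hi, ?_⟩
  have hd : d⁄dX ℚ (fs ^ 2) = 2 * fs * d⁄dX ℚ fs := by
    rw [pow_two, D_mul]; ring
  rw [hd]
  linear_combination (-(2 * d⁄dX ℚ fs)) * hinv

/-- the module spanned by `fs` over the integral series -/
def V (F : ℚ⟦X⟧) : Prop := ∃ φ, Int2 φ ∧ F = φ * fs

theorem V.D {F : ℚ⟦X⟧} (h : V F) : V (2 * d⁄dX ℚ F) := by
  obtain ⟨φ, hφ, rfl⟩ := h
  obtain ⟨r, hr, hr'⟩ := fs_D
  refine ⟨2 * d⁄dX ℚ φ + φ * r, (two_int.mul hφ.D).add (hφ.mul hr), ?_⟩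
  rw [D_mul]
  linear_combination φ * hr'

theorem V.mul {F φ : ℚ⟦X⟧} (hφ : Int2 φ) (h : V F) : V (φ * F) := by
  obtain ⟨ψ, hψ, rfl⟩ := h
  exact ⟨φ * ψ, hφ.mul hψ, by ring⟩

theorem V.add {F G : ℚ⟦X⟧} (hF : V F) (hG : V G) : V (F + G) := by
  obtain ⟨φ, hφ, rfl⟩ := hF
  obtain ⟨ψ, hψ, rfl⟩ := hG
  exact ⟨φ + ψ, hφ.add hψ, by ring⟩

theorem lin_int : Int2 (1 - 4 * X : ℚ⟦X⟧) := by
  apply Int2.one.sub
  intro n
  rw [c4]
  exact (Z2.nat 4).mul (Int2.X n)

theorem V_raise_a {α β γ : ℚ} (hα : α ≠ 0) (hz : Z2 (1 / (2 * α))) (h : V (hyp α β γ)) :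
    V (hyp (α + 1) β γ) := by
  rw [raise_a hα]
  exact h.add (V.mul (Int2.C hz) (V.mul Int2.X h.D))

theorem V_raise_c {α β γ : ℚ} (hγ : 0 < γ) (h1 : γ - α ≠ 0) (h2 : γ - β ≠ 0)
    (z1 : Z2 (γ / (8 * ((γ - α) * (γ - β))))) (z2 : Z2 (γ * (γ - α - β) / ((γ - α) * (γ - β))))
    (h : V (hyp α β γ)) : V (hyp α β (γ + 1)) := by
  rw [raise_c hγ h1 h2]
  exact (V.mul (Int2.C z1) (V.mul lin_int h.D)).add (V.mul (Int2.C z2) h)

theorem Z2.div_odd {x : ℚ} {b : ℤ} (hx : Z2 x) (hb : Odd b) : Z2 (x / b) := by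
  apply Z2.of_mul_odd hb
  have : (b : ℚ) ≠ 0 := by
    intro h0
    have : b = 0 := by exact_mod_cast h0
    subst this
    simp at hb
  rwa [div_mul_cancel₀ _ this]

theorem ys_int {ys : ℚ⟦X⟧} (hmul : ys * fs = Ns) : Int2 ys := by
  have hw := wronskian
  rw [← hmul] at hw
  have hG : (ys + 2 * (X * d⁄dX ℚ ys)) * ((1 - 4 * X) * fs ^ 2) = 1 := by
    rw [D_mul] at hw
    linear_combination hw
  have hsq : Int2 (fs ^ 2) := sq_int fs_ode fs_zero
  have h0 : constantCoeff fs = 1 := by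
    rw [← coeff_zero_eq_constantCoeff_apply]; exact fs_zero
  have hG0 : coeff 0 ((1 - 4 * X) * fs ^ 2) = 1 := by
    rw [coeff_zero_eq_constantCoeff_apply]
    simp [h0]
  have hY := inv_int (lin_int.mul hsq) hG0 hG
  intro n
  have h := hY n
  rw [map_add, c2, coeff_th] at h
  have e : coeff n ys + 2 * (n * coeff n ys) = coeff n ys * ((2 * (n : ℤ) + 1 : ℤ) : ℚ) := by
    push_cast; ring
  rw [e] at h
  exact Z2.of_mul_odd ⟨n, rfl⟩ h

theorem V_N0 : V (hyp (3 / 4) (3 / 4) (3 / 2)) := by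
  have h0 : constantCoeff fs = 1 := by
    rw [← coeff_zero_eq_constantCoeff_apply]; exact fs_zero
  have hinv : fs⁻¹ * fs = 1 := by
    apply PowerSeries.inv_mul_cancel
    rw [h0]; norm_num
  have hm : (Ns * fs⁻¹) * fs = Ns := by rw [mul_assoc, hinv, mul_one]
  exact ⟨Ns * fs⁻¹, ys_int hm, by rw [hm, Ns_eq]⟩

theorem V_D0 : V (hyp (1 / 4) (1 / 4) (1 / 2)) := ⟨1, Int2.one, by rw [one_mul, fs_eq]⟩

theorem V_N (p q r : ℕ) : V (hyp (3 / 4 + p) (3 / 4 + q) (3 / 2 + r)) := by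
  induction r with
  | zero =>
    rw [Nat.cast_zero, add_zero]
    induction q with
    | zero =>
      rw [Nat.cast_zero, add_zero]
      induction p with
      | zero => rw [Nat.cast_zero, add_zero]; exact V_N0
      | succ p ih =>
        have hne : (3 / 4 + (p : ℚ)) ≠ 0 := by positivity
        have := V_raise_a hne ?_ ih
        · rw [Nat.cast_succ, ← add_assoc]; exact this
        · have e : (1 / (2 * (3 / 4 + (p : ℚ)))) = 2 / ((4 * (p : ℤ) + 3 : ℤ) : ℚ) := by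
            push_cast
            rw [div_eq_div_iff (by positivity) (by positivity)]; ring
          rw [e]
          exact Z2.div_odd (by simpa using Z2.nat 2) ⟨2 * p + 1, by ring⟩
    | succ q ih =>
      rw [hyp_symm] at ih ⊢
      have hne : (3 / 4 + (q : ℚ)) ≠ 0 := by positivity
      have := V_raise_a hne ?_ ih
      · rw [Nat.cast_succ, ← add_assoc]; exact this
      · have e : (1 / (2 * (3 / 4 + (q : ℚ)))) = 2 / ((4 * (q : ℤ) + 3 : ℤ) : ℚ) := by
          push_cast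
          rw [div_eq_div_iff (by positivity) (by positivity)]; ring
        rw [e]
        exact Z2.div_odd (by simpa using Z2.nat 2) ⟨2 * q + 1, by ring⟩
  | succ r ih =>
    have o1 : Odd (4 * (r : ℤ) - 4 * p + 3) := ⟨2 * r - 2 * p + 1, by ring⟩
    have o2 : Odd (4 * (r : ℤ) - 4 * q + 3) := ⟨2 * r - 2 * q + 1, by ring⟩
    have ne_of : ∀ b : ℤ, Odd b → (b : ℚ) ≠ 0 := by
      intro b hb h0
      have : b = 0 := by exact_mod_cast h0
      subst this
      simp at hb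
    have n1 := ne_of _ o1
    have n2 := ne_of _ o2
    have e1 : (3 / 2 + (r : ℚ)) - (3 / 4 + p) = ((4 * (r : ℤ) - 4 * p + 3 : ℤ) : ℚ) / 4 := by
      push_cast; ring
    have e2 : (3 / 2 + (r : ℚ)) - (3 / 4 + q) = ((4 * (r : ℤ) - 4 * q + 3 : ℤ) : ℚ) / 4 := by
      push_cast; ring
    have h1 : (3 / 2 + (r : ℚ)) - (3 / 4 + p) ≠ 0 := by
      rw [e1]; exact div_ne_zero n1 (by norm_num)
    have h2 : (3 / 2 + (r : ℚ)) - (3 / 4 + q) ≠ 0 := by
      rw [e2]; exact div_ne_zero n2 (by norm_num)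
    have := V_raise_c (by positivity) h1 h2 ?_ ?_ ih
    · rw [Nat.cast_succ, ← add_assoc]; exact this
    · rw [e1, e2]
      have e : (3 / 2 + (r : ℚ)) / (8 * (((4 * (r : ℤ) - 4 * p + 3 : ℤ) : ℚ) / 4 *
          (((4 * (r : ℤ) - 4 * q + 3 : ℤ) : ℚ) / 4))) =
          ((2 * (r : ℤ) + 3 : ℤ) : ℚ) / ((4 * (r : ℤ) - 4 * p + 3 : ℤ) : ℚ) /
            ((4 * (r : ℤ) - 4 * q + 3 : ℤ) : ℚ) := by
        rw [div_div, div_eq_div_iff (by positivity) (mul_ne_zero n1 n2)]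
        push_cast; ring
      rw [e]
      exact ((Z2.int _).div_odd o1).div_odd o2
    · have e : (3 / 2 + (r : ℚ)) * (3 / 2 + r - (3 / 4 + p) - (3 / 4 + q)) /
          (((3 / 2 + (r : ℚ)) - (3 / 4 + p)) * ((3 / 2 + (r : ℚ)) - (3 / 4 + q))) =
          ((8 * (2 * (r : ℤ) + 3) * (r - p - q) : ℤ) : ℚ) / ((4 * (r : ℤ) - 4 * p + 3 : ℤ) : ℚ) /
            ((4 * (r : ℤ) - 4 * q + 3 : ℤ) : ℚ) := by
        rw [div_div, div_eq_div_iff (mul_ne_zero h1 h2) (mul_ne_zero n1 n2)]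
        push_cast; ring
      rw [e]
      exact ((Z2.int _).div_odd o1).div_odd o2

theorem V_D (p q r : ℕ) : V (hyp (1 / 4 + p) (1 / 4 + q) (1 / 2 + r)) := by
  induction r with
  | zero =>
    rw [Nat.cast_zero, add_zero]
    induction q with
    | zero =>
      rw [Nat.cast_zero, add_zero]
      induction p with
      | zero => rw [Nat.cast_zero, add_zero]; exact V_D0
      | succ p ih =>
        have hne : (1 / 4 + (p : ℚ)) ≠ 0 := by positivity
        have := V_raise_a hne ?_ ih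
        · rw [Nat.cast_succ, ← add_assoc]; exact this
        · have e : (1 / (2 * (1 / 4 + (p : ℚ)))) = 2 / ((4 * (p : ℤ) + 1 : ℤ) : ℚ) := by
            push_cast
            rw [div_eq_div_iff (by positivity) (by positivity)]; ring
          rw [e]
          exact Z2.div_odd (by simpa using Z2.nat 2) ⟨2 * p, by ring⟩
    | succ q ih =>
      rw [hyp_symm] at ih ⊢
      have hne : (1 / 4 + (q : ℚ)) ≠ 0 := by positivity
      have := V_raise_a hne ?_ ih
      · rw [Nat.cast_succ, ← add_assoc]; exact this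
      · have e : (1 / (2 * (1 / 4 + (q : ℚ)))) = 2 / ((4 * (q : ℤ) + 1 : ℤ) : ℚ) := by
          push_cast
          rw [div_eq_div_iff (by positivity) (by positivity)]; ring
        rw [e]
        exact Z2.div_odd (by simpa using Z2.nat 2) ⟨2 * q, by ring⟩
  | succ r ih =>
    have o1 : Odd (4 * (r : ℤ) - 4 * p + 1) := ⟨2 * r - 2 * p, by ring⟩
    have o2 : Odd (4 * (r : ℤ) - 4 * q + 1) := ⟨2 * r - 2 * q, by ring⟩
    have ne_of : ∀ b : ℤ, Odd b → (b : ℚ) ≠ 0 := by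
      intro b hb h0
      have : b = 0 := by exact_mod_cast h0
      subst this
      simp at hb
    have n1 := ne_of _ o1
    have n2 := ne_of _ o2
    have e1 : (1 / 2 + (r : ℚ)) - (1 / 4 + p) = ((4 * (r : ℤ) - 4 * p + 1 : ℤ) : ℚ) / 4 := by
      push_cast; ring
    have e2 : (1 / 2 + (r : ℚ)) - (1 / 4 + q) = ((4 * (r : ℤ) - 4 * q + 1 : ℤ) : ℚ) / 4 := by
      push_cast; ring
    have h1 : (1 / 2 + (r : ℚ)) - (1 / 4 + p) ≠ 0 := by
      rw [e1]; exact div_ne_zero n1 (by norm_num)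
    have h2 : (1 / 2 + (r : ℚ)) - (1 / 4 + q) ≠ 0 := by
      rw [e2]; exact div_ne_zero n2 (by norm_num)
    have := V_raise_c (by positivity) h1 h2 ?_ ?_ ih
    · rw [Nat.cast_succ, ← add_assoc]; exact this
    · rw [e1, e2]
      have e : (1 / 2 + (r : ℚ)) / (8 * (((4 * (r : ℤ) - 4 * p + 1 : ℤ) : ℚ) / 4 *
          (((4 * (r : ℤ) - 4 * q + 1 : ℤ) : ℚ) / 4))) =
          ((2 * (r : ℤ) + 1 : ℤ) : ℚ) / ((4 * (r : ℤ) - 4 * p + 1 : ℤ) : ℚ) /
            ((4 * (r : ℤ) - 4 * q + 1 : ℤ) : ℚ) := by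
        rw [div_div, div_eq_div_iff (by positivity) (mul_ne_zero n1 n2)]
        push_cast; ring
      rw [e]
      exact ((Z2.int _).div_odd o1).div_odd o2
    · have e : (1 / 2 + (r : ℚ)) * (1 / 2 + r - (1 / 4 + p) - (1 / 4 + q)) /
          (((1 / 2 + (r : ℚ)) - (1 / 4 + p)) * ((1 / 2 + (r : ℚ)) - (1 / 4 + q))) =
          ((8 * (2 * (r : ℤ) + 1) * (r - p - q) : ℤ) : ℚ) / ((4 * (r : ℤ) - 4 * p + 1 : ℤ) : ℚ) /
            ((4 * (r : ℤ) - 4 * q + 1 : ℤ) : ℚ) := by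
        rw [div_div, div_eq_div_iff (mul_ne_zero h1 h2) (mul_ne_zero n1 n2)]
        push_cast; ring
      rw [e]
      exact ((Z2.int _).div_odd o1).div_odd o2

/-- integrality of the quotient -/
theorem quot_int {N D : ℚ⟦X⟧} (hN : V N) (hD : V D) (hD0 : coeff 0 D = 1) : Int2 (N * D⁻¹) := by
  obtain ⟨ν, hν, rfl⟩ := hN
  obtain ⟨δ, hδ, rfl⟩ := hD
  have h0 : constantCoeff fs = 1 := by
    rw [← coeff_zero_eq_constantCoeff_apply]; exact fs_zero
  have hδ0 : coeff 0 δ = 1 := by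
    rw [coeff_zero_eq_constantCoeff_apply, map_mul, h0, mul_one] at hD0
    rw [coeff_zero_eq_constantCoeff_apply]; exact hD0
  have hinv : (δ * fs)⁻¹ * (δ * fs) = 1 := by
    apply PowerSeries.inv_mul_cancel
    rw [← coeff_zero_eq_constantCoeff_apply, hD0]; norm_num
  have hh : (fs * (δ * fs)⁻¹) * δ = 1 := by
    linear_combination hinv
  have hi := inv_int hδ hδ0 hh
  have e : ν * fs * (δ * fs)⁻¹ = ν * (fs * (δ * fs)⁻¹) := by ring
  rw [e]
  exact hν.mul hi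

end Pool.Agent.Q95.HQ
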